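import Pool.Agent.helper17.GFG.Spec

set_option autoImplicit false

open Finset

namespace Pool.Agent.EXT

open Pool.Agent.EXC

/-- the computation in a group -/
theorem KPP_grp {G : Type*} [Group G] (A B D1 D2 C1 C2 E1 E2 : G)
    (hAD1 : A * D1 = D1 * A) (hAD2 : A * D2 = D2 * A) (hAC1 : A * C1 * A⁻¹ = C1 * E1)
    (hAC2 : A * C2 = C2 * A) (hBD1 : B * D1 = D1 * B) (hBD2 : B * D2 * B⁻¹ = D2 * E2)
    (hBC1 : B * C1 = C1 * B) (hBC2 : B * C2 = C2 * B) (hAE2 : A * E2 = E2 * A)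
    (h2C1 : E2 * C1 = C1 * E2) (h2C2 : E2 * C2 = C2 * E2) (h1C2 : E1 * C2 = C2 * E1) :
    (A * B) * (D1 * D2 * (C1 * C2)) * (A * B)⁻¹ = D1 * D2 * (C1 * C2) * (E2 * E1) := by
  have conj : ∀ X Y : G, X * Y = Y * X → X * Y * X⁻¹ = Y := by
    intro X Y h
    rw [h, mul_inv_cancel_right]
  have e1 : (A * B) * (D1 * D2 * (C1 * C2)) * (A * B)⁻¹ =
      A * ((B * D1 * B⁻¹) * (B * D2 * B⁻¹) * ((B * C1 * B⁻¹) * (B * C2 * B⁻¹))) * A⁻¹ := by group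
  rw [e1, conj B D1 hBD1, hBD2, conj B C1 hBC1, conj B C2 hBC2]
  have e2 : A * (D1 * (D2 * E2) * (C1 * C2)) * A⁻¹ =
      (A * D1 * A⁻¹) * ((A * D2 * A⁻¹) * (A * E2 * A⁻¹)) * ((A * C1 * A⁻¹) * (A * C2 * A⁻¹)) := by
    group
  rw [e2, conj A D1 hAD1, conj A D2 hAD2, conj A E2 hAE2, hAC1, conj A C2 hAC2]
  calc D1 * (D2 * E2) * (C1 * E1 * C2) = D1 * D2 * (E2 * C1) * (E1 * C2) := by group
    _ = D1 * D2 * (C1 * E2) * (C2 * E1) := by rw [h2C1, h1C2]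
    _ = D1 * D2 * C1 * (E2 * C2) * E1 := by group
    _ = D1 * D2 * C1 * (C2 * E2) * E1 := by rw [h2C2]
    _ = D1 * D2 * (C1 * C2) * (E2 * E1) := by group

theorem KPP_rt : ∀ k : Fin 3, ip C6 (cc3 k) (cc3 k) = 2 ∧ ip C6 (cc3 k) th = -1 ∧ pv (cc3 k) = cc3 k ∧
    ip C6 (cc3 k) (-sr 1) = 0 ∧ (cc3 k + th) + (-sr 1) = bt3 k ∧ (-sr 1) + (cc3 k + th) = bt3 k ∧
    sg C6 (-sr 1) (cc3 k + th) = - sg C6 (cc3 k + th) (-sr 1) ∧ ip C6 (bt3 k) (bt3 k) = 2 := by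
  decide +kernel

theorem KPP_c : ip C6 (-sr 1) (-sr 1) = 2 ∧ ip C6 (-sr 1) th = -1 ∧ pv (-sr 1) = -sr 1 ∧
    ip C6 th th = 2 := by
  decide +kernel

theorem KPP (hKVA : KVA_stmt) : KPP_stmt := by
  intro K _ κ hκ H hY k hP
  obtain ⟨hdd, hdt, hpd, hdc, hE, hE', hsg, hee⟩ := KPP_rt k
  obtain ⟨hcc, hct, hpc, htt⟩ := KPP_c
  set c : Fin 6 → ℤ := -sr 1 with hc
  set d : Fin 6 → ℤ := cc3 k with hd
  have hcd : ip C6 c d = 0 := by rw [ip_comm]; exact hdc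
  have htc : ip C6 th c = -1 := by rw [ip_comm]; exact hct
  have htd : ip C6 th d = -1 := by rw [ip_comm]; exact hdt
  have hdt2 : ip C6 (d + th) (d + th) = 2 := by
    rw [ip_add_left, ip_add_right, ip_add_right, hdd, hdt, htd, htt]; norm_num
  have hct2 : ip C6 (c + th) (c + th) = 2 := by
    rw [ip_add_left, ip_add_right, ip_add_right, hcc, hct, htc, htt]; norm_num
  have x1 := k_GXC 6 C6 K hb6
  have hadd : ∀ α, ip C6 α α = 2 → ∀ s t : K, XG C6 α (s + t) = XG C6 α s * XG C6 α t :=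
    fun α hα s t => (x1 α α hα hα s t).1
  have hcom : ∀ α β, ip C6 α α = 2 → ip C6 β β = 2 → 0 ≤ ip C6 α β → ∀ s t : K,
      XG C6 α s * XG C6 β t = XG C6 β t * XG C6 α s :=
    fun α β hα hβ h s t => (x1 α β hα hβ s t).2.2.1 h
  obtain ⟨ε₁, he₁, h1⟩ := (hKVA K κ hκ c ⟨hcc, hpc⟩ hct).1
  obtain ⟨ε₂, he₂, h2⟩ := (hKVA K κ hκ d ⟨hdd, hpd⟩ hdt).1
  have z : ∀ α, ip C6 α α = 2 → XG C6 α (0 : K) = 1 := fun α hα => (x1 α α hα hα 0 0).2.1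
  have k1 := h1 1 0
  have k2 := h2 0 1
  rw [z _ hct2, mul_one] at k1
  rw [z _ hdd, one_mul] at k2
  set Y := XG C6 th (1 : K) * XG C6 (-th) κ with hYd
  set C1 := XG C6 c (1 - (ε₁ : K) * κ * 0) with hC1
  set C2 := XG C6 (c + th) (0 + (ε₁ : K) * (1 - (ε₁ : K) * κ * 0)) with hC2
  set D1 := XG C6 d (0 - (ε₂ : K) * κ * 1) with hD1
  set D2 := XG C6 (d + th) (1 + (ε₂ : K) * (0 - (ε₂ : K) * κ * 1)) with hD2
  have hP' : XG C6 (d + th) (1 : K) * XG C6 c 1 ∈ H := by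
    rw [add_comm d th]; exact hP
  set A := XG C6 (d + th) (1 : K) with hA
  set B := XG C6 c (1 : K) with hB
  have hQ : Y * (A * B) * Y⁻¹ = D1 * D2 * (C1 * C2) := by
    have : Y * (A * B) * Y⁻¹ = (Y * A * Y⁻¹) * (Y * B * Y⁻¹) := by group
    rw [this, k1, k2]
  have hQH : D1 * D2 * (C1 * C2) ∈ H := by
    rw [← hQ]
    exact H.mul_mem (H.mul_mem hY hP') (H.inv_mem hY)
  have hdtc : ip C6 (d + th) c = -1 := by
    rw [ip_add_left, hdc, htc]; norm_num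
  have hcdt : ip C6 c (d + th) = -1 := by rw [ip_comm]; exact hdtc
  have hed : ip C6 (bt3 k) d = 1 := by
    rw [← hE, ip_add_left, ip_add_left, hdd, htd, hcd]; norm_num
  have heth : ip C6 (bt3 k) th = 0 := by
    rw [← hE, ip_add_left, ip_add_left, hdt, htt, hct]; norm_num
  have hec : ip C6 (bt3 k) c = 1 := by
    rw [← hE, ip_add_left, ip_add_left, hdc, htc, hcc]; norm_num
  have hedt : ip C6 (bt3 k) (d + th) = 1 := by rw [ip_add_right, hed, heth]; norm_num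
  have hect : ip C6 (bt3 k) (c + th) = 1 := by rw [ip_add_right, hec, heth]; norm_num
  set δ : ℤ := sg C6 (d + th) c with hδ
  have hAC1 := (x1 (d + th) c hdt2 hcc (1 : K) (1 - (ε₁ : K) * κ * 0)).2.2.2 hdtc
  have hBD2 := (x1 c (d + th) hcc hdt2 (1 : K) (1 + (ε₂ : K) * (0 - (ε₂ : K) * κ * 1))).2.2.2 hcdt
  rw [hE] at hAC1
  rw [hE'] at hBD2
  have hcomm := KPP_grp A B D1 D2 C1 C2 _ _
    (hcom _ _ hdt2 hdd (by rw [ip_add_left, hdd, htd]; norm_num) _ _)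
    (hcom _ _ hdt2 hdt2 (by rw [hdt2]; norm_num) _ _)
    hAC1
    (hcom _ _ hdt2 hct2 (by rw [ip_add_left, ip_add_right, ip_add_right, hdc, hdt, htc, htt]; norm_num) _ _)
    (hcom _ _ hcc hdd (by rw [hcd]) _ _)
    hBD2
    (hcom _ _ hcc hcc (by rw [hcc]; norm_num) _ _)
    (hcom _ _ hcc hct2 (by rw [ip_add_right, hcc, hct]; norm_num) _ _)
    (hcom _ _ hdt2 hee (by rw [ip_comm, hedt]; norm_num) _ _)
    (hcom _ _ hee hcc (by rw [hec]; norm_num) _ _)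
    (hcom _ _ hee hct2 (by rw [hect]; norm_num) _ _)
    (hcom _ _ hee hct2 (by rw [hect]; norm_num) _ _)
  rw [← hadd _ hee] at hcomm
  have he₂' : (ε₂ : K) * (ε₂ : K) = 1 := by
    rcases he₂ with h | h <;> rw [h] <;> simp
  have hval : 1 * (1 + (ε₂ : K) * (0 - (ε₂ : K) * κ * 1)) * ((sg C6 c (d + th) : ℤ) : K)
      + 1 * (1 - (ε₁ : K) * κ * 0) * ((δ : ℤ) : K) = (δ : K) * κ := by
    rw [hsg]
    push_cast
    linear_combination (δ : K) * κ * he₂'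
  have hEH : XG C6 (bt3 k) ((δ : K) * κ) ∈ H := by
    rw [← hval]
    have : XG C6 (bt3 k) (1 * (1 + (ε₂ : K) * (0 - (ε₂ : K) * κ * 1)) * ((sg C6 c (d + th) : ℤ) : K)
      + 1 * (1 - (ε₁ : K) * κ * 0) * ((δ : ℤ) : K)) =
      (D1 * D2 * (C1 * C2))⁻¹ * ((A * B) * (D1 * D2 * (C1 * C2)) * (A * B)⁻¹) := by
      rw [hcomm, inv_mul_cancel_left]
    rw [this]
    exact H.mul_mem (H.inv_mem hQH) (H.mul_mem (H.mul_mem hP' hQH) (H.inv_mem hP'))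
  have hδ1 : δ = 1 ∨ δ = -1 := by
    rw [hδ]
    unfold sg
    split_ifs
    · exact Or.inl rfl
    · exact Or.inr rfl
  rcases hδ1 with h | h
  · rw [h] at hEH
    have e : ((1 : ℤ) : K) * κ = κ := by push_cast; ring
    rw [e] at hEH
    exact hEH
  · rw [h] at hEH
    have e : ((-1 : ℤ) : K) * κ = -κ := by push_cast; ring
    rw [e, ← (g_XG K (bt3 k) hee κ).2.2] at hEH
    exact (Subgroup.inv_mem_iff H).1 hEH

end Pool.Agent.EXT
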