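import Pool.Agent.helper17.GFG.Spec

set_option autoImplicit false

open Finset

namespace Pool.Agent.EXT

open Pool.Agent.EXC

/-- the linear maps in `GS τ` which induce an element of `L` -/
def KRD_H {K : Type} [Field K] (τ : K ≃+* K) (L : Subgroup (GF τ)) :
    Subgroup (Lm C6 K ≃ₗ[K] Lm C6 K) where
  carrier := {g | ∃ l ∈ L, ∀ v : LT τ, (((l : GF τ) : Equiv.Perm (LT τ)) v : Lm C6 K) = g v}
  one_mem' := ⟨1, one_mem _, fun _ => rfl⟩
  mul_mem' := by
    rintro g g' ⟨l, hl, h⟩ ⟨l', hl', h'⟩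
    exact ⟨l * l', mul_mem hl hl', fun v => by
      rw [Subgroup.coe_mul, Equiv.Perm.mul_apply, h, h']; rfl⟩
  inv_mem' := by
    rintro g ⟨l, hl, h⟩
    refine ⟨l⁻¹, inv_mem hl, fun v => ?_⟩
    have e := h (((l⁻¹ : GF τ) : Equiv.Perm (LT τ)) v)
    have e2 : ((l : GF τ) : Equiv.Perm (LT τ)) (((l⁻¹ : GF τ) : Equiv.Perm (LT τ)) v) = v :=
      ((l : GF τ) : Equiv.Perm (LT τ)).apply_symm_apply v
    rw [e2] at e
    rw [e]
    exact (LinearEquiv.symm_apply_apply g _).symm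

theorem KRD (hGFX : GFX_stmt) (hSGR : SGR_stmt) : KRD_stmt := by
  intro K _ τ hτ y k hk hgen
  choose f hf using fun i => (hk i).2
  refine ⟨f, ?_⟩
  set L : Subgroup (GF τ) := Subgroup.closure (Set.range fun i => f i * y * (f i)⁻¹) with hL
  have h1 : GS τ ≤ KRD_H τ L := by
    apply hgen
    intro i
    exact ⟨f i * y * (f i)⁻¹, Subgroup.subset_closure ⟨i, rfl⟩, hf i⟩
  rw [eq_top_iff]
  intro φ _
  obtain ⟨g, hg, hφ⟩ := φ.2
  obtain ⟨l, hl, hlv⟩ := h1 hg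
  have e : φ = l := by
    apply Subtype.ext
    apply Equiv.ext
    intro v
    apply Subtype.ext
    rw [hφ v, hlv v]
  rw [e]
  exact hl

end Pool.Agent.EXT
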